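import Mathlib
import Pool.Agent.W295.NL.Stm

set_option autoImplicit false

namespace Pool.Agent.W985.NL.G2M

open Pool.Agent.W295.NL

/-- Edge and cell values of the lift. -/
def S (κ : ℕ → Fin 3) (A h : ℕ → ZMod 2) (a : Fin 3) (t : ℕ) : ZMod 2 :=
  if a = κ t then A t else if a = κ (t + 1) then A (t + 1) else h t

lemma S_sum_aux : ∀ (u v : Fin 3), u ≠ v → ∀ x y z : ZMod 2,
    (if (0 : Fin 3) = u then x else if (0 : Fin 3) = v then y else z) +
    (if (1 : Fin 3) = u then x else if (1 : Fin 3) = v then y else z) +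
    (if (2 : Fin 3) = u then x else if (2 : Fin 3) = v then y else z) = x + y + z := by
  decide

lemma two_aux : ∀ s0 s1 s2 x y z w : ZMod 2, s0 + s1 + s2 = x + y + z → x + y + z + w = 0 →
    s2 = s0 + s1 + w := by
  decide

lemma ne_add_one : ∀ x : ZMod 2, x ≠ x + 1 := by decide

lemma add_one_one : ∀ x : ZMod 2, x + 1 + 1 = x := by decide

lemma per_modEq {α : Type} (g : ℕ → α) (m : ℕ) (hg : ∀ t, g (t + m) = g t) {t t' : ℕ}
    (h : t ≡ t' [MOD m]) : g t = g t' := by
  have hp : Function.Periodic g m := hg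
  rw [← hp.map_mod_nat t, ← hp.map_mod_nat t']
  rw [h]

lemma two_cases {n t t' : ℕ} (h : t' ≡ t [MOD 2 * n]) :
    t' ≡ t [MOD 2 * (2 * n)] ∨ t' ≡ t + 2 * n [MOD 2 * (2 * n)] := by
  obtain ⟨k, hk⟩ := (Nat.modEq_iff_dvd).1 h
  rcases Int.even_or_odd' k with ⟨j, hj | hj⟩
  · left
    apply (Nat.modEq_iff_dvd).2
    refine ⟨j, ?_⟩
    rw [hk, hj]; push_cast; ring
  · right
    apply (Nat.modEq_iff_dvd).2
    refine ⟨j + 1, ?_⟩
    have : ((t + 2 * n : ℕ) : ℤ) - (t' : ℤ) = ((t : ℤ) - t') + 2 * n := by push_cast; ring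
    rw [this, hk, hj]; push_cast; ring

theorem main : S_G2M := by
  intro Q L n hn X κ h hG f A hA hAper
  obtain ⟨hC, hh, hcl⟩ := hG
  have hA4 : ∀ t, A (t + 2 * (2 * n)) = A t := by
    intro t
    rw [show t + 2 * (2 * n) = t + 2 * n + 2 * n by ring, hAper, hAper, add_one_one]
  have hκ4 : ∀ t, κ (t + 2 * (2 * n)) = κ t := by
    intro t
    rw [show t + 2 * (2 * n) = t + 2 * n + 2 * n by ring, hC.kper, hC.kper]
  have hh4 : ∀ t, h (t + 2 * (2 * n)) = h t := by
    intro t
    rw [show t + 2 * (2 * n) = t + 2 * n + 2 * n by ring, hh, hh]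
  have hX4 : ∀ a t, X a (t + 2 * (2 * n)) = X a t := by
    intro a t
    rw [show t + 2 * (2 * n) = t + 2 * n + 2 * n by ring, hC.per, hC.per]
  have hS4 : ∀ a t, S κ A h a (t + 2 * (2 * n)) = S κ A h a t := by
    intro a t
    unfold S
    rw [show t + 2 * (2 * n) + 1 = (t + 1) + 2 * (2 * n) by ring, hκ4, hκ4, hA4, hA4, hh4]
  refine ⟨⟨n, by ring⟩, by omega, fun a t => (X a t, S κ A h a t), κ, ?_, hC.kper, ?_⟩
  · refine ⟨?_, hκ4, ?_, hC.kne, ?_⟩
    · intro a t
      show (X a (t + 2 * (2 * n)), S κ A h a (t + 2 * (2 * n))) = (X a t, S κ A h a t)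
      rw [hX4, hS4]
    · intro t
      show (X 2 t, S κ A h 2 t) = (L (X 0 t) (X 1 t), S κ A h 0 t + S κ A h 1 t + f (X 0 t) (X 1 t))
      have h1 := S_sum_aux (κ t) (κ (t + 1)) (hC.kne t) (A t) (A (t + 1)) (h t)
      have h2 := two_aux _ _ _ (A t) (A (t + 1)) (h t) (f (X 0 t) (X 1 t)) h1 (hA t)
      rw [← hC.sym t]
      exact Prod.ext rfl h2
    · intro t
      show (X (κ (t + 1)) (t + 1), S κ A h (κ (t + 1)) (t + 1)) =
        (X (κ (t + 1)) t, S κ A h (κ (t + 1)) t)
      rw [hC.edge t]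
      refine Prod.ext rfl ?_
      show S κ A h (κ (t + 1)) (t + 1) = S κ A h (κ (t + 1)) t
      unfold S
      rw [if_pos rfl, if_neg (hC.kne t).symm, if_pos rfl]
  · intro a t t' hE
    have hX : X a t = X a t' := congrArg Prod.fst hE
    have hS : S κ A h a t = S κ A h a t' := congrArg Prod.snd hE
    rcases hcl a t t' hX with h1 | ⟨ha, h1⟩ | ⟨ha, h1⟩ | ⟨h1, h2, h3, h4, h5⟩
    · rcases two_cases h1 with h6 | h6
      · exact Or.inl h6
      · have e1 : κ t' = κ t := by
          have := per_modEq κ (2 * n) hC.kper h1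
          exact this
        have e2 : κ (t' + 1) = κ (t + 1) := per_modEq κ (2 * n) hC.kper (h1.add_right 1)
        have e3 : A t' = A t + 1 := by
          rw [per_modEq A (2 * (2 * n)) hA4 h6, hAper]
        have e4 : A (t' + 1) = A (t + 1) + 1 := by
          rw [per_modEq A (2 * (2 * n)) hA4 (h6.add_right 1),
            show t + 2 * n + 1 = (t + 1) + 2 * n by ring, hAper]
        unfold S at hS
        rw [e1, e2, e3, e4] at hS
        by_cases c1 : a = κ t
        · rw [if_pos c1, if_pos c1] at hS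
          exact absurd hS (ne_add_one _)
        · by_cases c2 : a = κ (t + 1)
          · rw [if_neg c1, if_neg c1, if_pos c2, if_pos c2] at hS
            exact absurd hS (ne_add_one _)
          · exact Or.inr (Or.inr (Or.inr ⟨c1, c2, h6⟩))
    · rcases two_cases h1 with h6 | h6
      · exact Or.inr (Or.inl ⟨ha, h6⟩)
      · exfalso
        have e1 : κ t' = κ (t + 1) := per_modEq κ (2 * n) hC.kper h1
        have e3 : A t' = A (t + 1) + 1 := by
          rw [per_modEq A (2 * (2 * n)) hA4 h6, hAper]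
        unfold S at hS
        rw [e1, e3, ha, if_neg (hC.kne t).symm, if_pos rfl, if_pos rfl] at hS
        exact ne_add_one _ hS
    · rcases two_cases h1 with h6 | h6
      · exact Or.inr (Or.inr (Or.inl ⟨ha, h6⟩))
      · exfalso
        have e1 : κ (t' + 1) = κ t := per_modEq κ (2 * n) hC.kper h1
        have e3 : A (t' + 1) = A t + 1 := by
          rw [per_modEq A (2 * (2 * n)) hA4 h6, hAper]
        have e4 : κ t ≠ κ t' := by
          rw [← e1]; exact (hC.kne t').symm
        unfold S at hS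
        rw [e1, e3, ha, if_pos rfl, if_neg e4, if_pos rfl] at hS
        exact ne_add_one _ hS
    · exfalso
      unfold S at hS
      rw [if_neg h1, if_neg h2, if_neg h3, if_neg h4] at hS
      exact h5 hS

end Pool.Agent.W985.NL.G2M
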